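import Pool.Agent.H500.TH.Stm
import Pool.Agent.H37.SV.Mat

/-!
# Project TH (helper500), part E3: the theorem over `L` (adapted from `H37/SV/Fin.lean` of helper37)
-/

set_option autoImplicit false
set_option linter.unusedSectionVars false

namespace Pool.Agent.H894.TH.TFin

open NumberField IsDedekindDomain Filter Topology Polynomial
open Pool.Agent.W401.Cheb (GK IsFrob IsInert dens)
open Pool.Agent.H500.HC (InRay IsRayChar TotPos QBar ZBar em typ jz jz_inj)
open Pool.Agent.H500.MW (PosUD)
open Pool.Agent.H500.R2 (UnrOut SpC)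
open Pool.Agent.H500.SV
open Pool.Agent.H500.TH (AbGal typB S_TGal S_TFin)
open Pool.Agent.H37.SV (exists_pow charpoly_pow charpoly_diag)

section
variable {K L : Type} [Field K] [NumberField K] [Field L] [NumberField L] [Algebra K L]

/-- the place below `w` -/
theorem exists_below (w : HeightOneSpectrum (𝓞 L)) : ∃ v : HeightOneSpectrum (𝓞 K), Above w v := by
  have h1 : (w.asIdeal.comap (algebraMap (𝓞 K) (𝓞 L))).IsPrime := w.isPrime.comap _
  have h2 : w.asIdeal.comap (algebraMap (𝓞 K) (𝓞 L)) ≠ ⊥ :=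
    Ideal.IsIntegral.comap_ne_bot (𝓞 K) w.ne_bot
  exact ⟨⟨_, h1, h2⟩, rfl⟩

theorem above_unique {w : HeightOneSpectrum (𝓞 L)} {v v' : HeightOneSpectrum (𝓞 K)}
    (h : Above w v) (h' : Above w v') : v = v' :=
  HeightOneSpectrum.ext (h.symm.trans h')

theorem above_nat {w : HeightOneSpectrum (𝓞 L)} {v : HeightOneSpectrum (𝓞 K)}
    (h : Above w v) (N : ℕ) : (N : 𝓞 K) ∈ v.asIdeal ↔ (N : 𝓞 L) ∈ w.asIdeal := by
  rw [← h, Ideal.mem_comap, map_natCast]

end

section
variable {K E : Type} [Field K] [NumberField K] [Field E] [NumberField E]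
variable {j : E →+* QBar} {N n B : ℕ} {P : HeightOneSpectrum (𝓞 K) → (𝓞 E)[X]}
  {lam : HeightOneSpectrum (𝓞 E)}

theorem mul_diag {k : Type} [Field k] (A B : Matrix (Fin n) (Fin n) k) (hA : A.IsDiag) (i : Fin n) :
    (A * B) i i = A i i * B i i := by
  rw [Matrix.mul_apply, Finset.sum_eq_single i]
  · intro l _ hl
    rw [hA (Ne.symm hl), zero_mul]
  · intro h
    exact absurd (Finset.mem_univ i) h

end

theorem main : Pool.Agent.H500.TH.S_TGal → Pool.Agent.H500.TH.S_TFin := by
  intro hGal K E L _ _ _ _ _ _ _ j N n B M P α U0 ι hN hFld hα hPos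
  classical
  choose v hv using fun w : HeightOneSpectrum (𝓞 L) => exists_below (K := K) w
  choose f hf hfr using fun w : HeightOneSpectrum (𝓞 L) => hFld.frob (v w) w (hv w)
  have hinj : Function.Injective (algebraMap ZBar QBar) := RingOfIntegers.coe_injective
  have hP' : ∀ w : HeightOneSpectrum (𝓞 L), ∃ P' : (𝓞 E)[X], (N : 𝓞 L) ∉ w.asIdeal →
      P'.map (jz j) = ∏ i, (X - Polynomial.C (α (v w) i ^ f w)) := by
    intro w
    by_cases hw : (N : 𝓞 L) ∈ w.asIdeal
    · exact ⟨0, fun h => absurd hw h⟩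
    · have h1 : (N : 𝓞 K) ∉ (v w).asIdeal := fun h => hw ((above_nat (hv w) N).1 h)
      obtain ⟨P', hP'⟩ := exists_pow (jz j) (jz_inj j) (algebraMap ZBar QBar) hinj (P (v w))
        (α (v w)) (hα (v w) h1) (f w)
      exact ⟨P', fun _ => hP'⟩
  choose P' hP' using hP'
  have hAb : PosUD (AbGal (K := L) N n P') := by
    refine hPos.mono ?_
    rintro lam ⟨S, hS⟩
    have hdiag : ∀ s : GK L, (S.ρ (ι s) : Matrix (Fin n) (Fin n) S.k).IsDiag := by
      intro s
      refine (hS (ι s) ?_).1
      rw [← hFld.range]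
      exact ⟨s, rfl⟩
    let θ₀ : Fin n → (GK L →* S.k) := fun i =>
      { toFun := fun s => (S.ρ (ι s) : Matrix (Fin n) (Fin n) S.k) i i
        map_one' := by
          rw [map_one, map_one]
          simp
        map_mul' := by
          intro s s'
          rw [map_mul, map_mul, Matrix.GeneralLinearGroup.coe_mul]
          exact mul_diag _ _ (hdiag s) i }
    let θ : Fin n → (GK L →* S.kˣ) := fun i => (θ₀ i).toHomUnits
    have hθ : ∀ i s, (θ i s : S.k) = (S.ρ (ι s) : Matrix (Fin n) (Fin n) S.k) i i :=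
      fun i s => rfl
    have hker : ∀ i s, ι s ∈ S.ρ.ker → s ∈ (θ i).ker := by
      intro i s hs
      rw [MonoidHom.mem_ker] at hs ⊢
      apply Units.ext
      rw [hθ, hs]
      simp
    refine ⟨S.k, S.fk, S.ψ.comp (jz j), θ, S.hker, ?_, ?_, ?_⟩
    · intro i
      refine Subgroup.isOpen_mono (H₁ := S.ρ.ker.comap ι) ?_ (hFld.comap_open _ S.hop)
      intro s hs
      exact hker i s hs
    · intro i w hw s hs
      refine hker i s (S.hun (v w) ?_ (ι s) (hFld.inert (v w) w (hv w) s hs))
      intro h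
      exact hw ((above_nat (hv w) _).1 h)
    · intro w hwN hwl s hs
      have h1 : (N : 𝓞 K) ∉ (v w).asIdeal := fun h => hwN ((above_nat (hv w) N).1 h)
      have h2 : ((Ideal.absNorm lam.asIdeal : ℕ) : 𝓞 K) ∉ (v w).asIdeal :=
        fun h => hwl ((above_nat (hv w) _).1 h)
      obtain ⟨σ, τ, hσ, hτ, hστ⟩ := hfr w s hs
      have hτk : S.ρ τ = 1 := by
        have h3 : τ ∈ S.ρ.ker := by
          refine S.hun (v w) ?_ τ hτ
          intro h
          rw [Nat.cast_mul] at h
          rcases (v w).isPrime.mem_or_mem h with h | h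
          · exact h1 h
          · exact h2 h
        exact MonoidHom.mem_ker.1 h3
      have h3 := S.hfr (v w) h1 h2 σ hσ
      have h4 : (S.ρ σ : Matrix (Fin n) (Fin n) S.k).charpoly =
          ∏ i, (X - Polynomial.C (S.ψ (α (v w) i))) := by
        rw [h3, ← Polynomial.map_map, hα (v w) h1, Polynomial.map_prod]
        refine Finset.prod_congr rfl fun i _ => ?_
        rw [Polynomial.map_sub, map_X, Polynomial.map_C]
      have h5 := charpoly_pow _ _ h4 (f w)
      have h6 : (S.ρ (ι s) : Matrix (Fin n) (Fin n) S.k) =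
          (S.ρ σ : Matrix (Fin n) (Fin n) S.k) ^ f w := by
        rw [hστ, map_mul, map_pow, hτk, mul_one]
        rfl
      rw [← h6, charpoly_diag _ (hdiag s)] at h5
      rw [← Polynomial.map_map, hP' w hwN, Polynomial.map_prod]
      have h7 : ∀ i : Fin n, (X - Polynomial.C (α (v w) i ^ f w)).map S.ψ =
          X - Polynomial.C (S.ψ (α (v w) i) ^ f w) := by
        intro i
        rw [Polynomial.map_sub, map_X, Polynomial.map_C, map_pow S.ψ (α (v w) i) (f w)]
      rw [Finset.prod_congr rfl fun i _ => h7 i, ← h5]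
      exact Finset.prod_congr rfl fun i _ => by rw [hθ]
  obtain ⟨e, t, ψ, h1, h2, h3⟩ := hGal L E j N n hN P' hAb
  refine ⟨e, t, ψ, h1, h2, ?_⟩
  intro v' w f' hv' hw hnorm
  have hvv : v' = v w := above_unique hw (hv w)
  subst hvv
  have hff : f' = f w := by
    have h4 : Ideal.absNorm (v w).asIdeal ^ f' = Ideal.absNorm (v w).asIdeal ^ f w :=
      hnorm.symm.trans (hf w)
    have h5 : 1 < Ideal.absNorm (v w).asIdeal := by
      have h6 : Ideal.absNorm (v w).asIdeal ≠ 0 := by
        rw [Ne, Ideal.absNorm_eq_zero_iff]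
        exact (v w).ne_bot
      have h7 : Ideal.absNorm (v w).asIdeal ≠ 1 := by
        rw [Ne, Ideal.absNorm_eq_one_iff]
        exact (v w).isPrime.ne_top
      omega
    exact Nat.pow_right_injective h5 h4
  subst hff
  have hwN : (N : 𝓞 L) ∉ w.asIdeal := fun h => hv' ((above_nat hw N).2 h)
  rw [← hP' w hwN, h3 w hwN]

end Pool.Agent.H894.TH.TFin
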